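import Pool.Agent.W801.OL.Stm
import Pool.Agent.W808.HB.T_bs

/-! Project OL (helper801), task one: one leg is trivial. -/

set_option autoImplicit false

namespace Pool.Agent.W801.OL
open Pool.Agent.H863R2.Cyl
open Pool.Agent.H988R2.Perc (Word PD)
open Pool.Agent.W808.HB (bwm)

namespace Tone

theorem bwm_zero : bwm 0 = [] := rfl

theorem bwm_seam (m : ℕ) : bwm (m + 2) = seam (bwm m) := by
  unfold bwm seam
  have h1 : (m + 2) / 2 = m / 2 + 1 := by omega
  have h2 : m + 2 - (m / 2 + 1) = (m - m / 2) + 1 := by omega
  rw [h1, h2, List.replicate_succ, List.replicate_succ']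
  simp

theorem bwm_length (m : ℕ) : (bwm m).length = m := by
  unfold bwm
  rw [List.length_append, List.length_replicate, List.length_replicate]
  omega

theorem bwm_ok (m : ℕ) : Ok (bwm m) := by
  unfold Ok
  rw [bwm_length]
  unfold bwm
  rw [List.count_append, List.count_replicate_self, List.count_replicate]
  simp
  omega

theorem main (e : ℕ → ℕ → Word → Word → ℂ) (he : LSp 1 e) (n : ℕ) :
    ∀ w' w : Word, Ok w' → Ok w → w.length = n → w'.length + 1 = w.length → e 1 0 w' w = 1 := by
  induction n using Nat.strong_induction_on with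
  | _ n ih =>
    intro w' w ow' ow hn hl
    by_cases hw : w = bwm n
    · rcases n with _ | _ | n
      · omega
      · have h0 : w' = [] := List.length_eq_zero_iff.1 (by omega)
        rw [hw, h0]
        exact he.base 1 0 rfl
      · rw [hw, bwm_seam]
        have hbl := bwm_length n
        have h1 := he.moveL 1 0 w' (bwm n) rfl ow' (bwm_ok n) (by omega) le_rfl (by omega)
        have h2 := he.symm 0 1 (rotr w') (bwm n) rfl (by rw [length_rotr]; omega) (Nat.zero_le _)
        rw [h1, Nat.sub_self, Nat.zero_add, h2]
        exact ih (n + 1) (by omega) (bwm n) (rotr w') (bwm_ok n) (ok_rotr.2 ow')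
          (by rw [length_rotr]; omega) (by rw [length_rotr]; omega)
    · obtain ⟨i, u, rfl, ou, hu, hi⟩ := Pool.Agent.W808.HB.Tbs.exists_arc n w hn ow hw
      rcases Nat.eq_zero_or_pos i with rfl | hi0
      · have h1 := he.moveR 1 0 w' u rfl ow' ou (by omega) le_rfl (by omega)
        have h2 := he.symm 0 1 w' u rfl (by omega) (Nat.zero_le _)
        rw [Nat.sub_self] at h1
        rw [h1, Nat.zero_add, h2]
        exact ih (n - 1) (by omega) u w' ou ow' (by omega) (by omega)
      · have h1 := he.insR 1 0 i w' u rfl ow' ou (by omega) hi0 (by omega)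
        have hc : (cap (i - 1 + 0) w').length + 2 = w'.length := length_cap (by omega)
        rw [h1]
        exact ih (n - 2) (by omega) _ u (ok_cap ow' (by omega)) ou (by omega) (by omega)

end Tone

theorem t_one : S_one := by
  intro e he p r w' w hpr ow' ow hl hp
  rcases p with _ | p
  · obtain rfl : r = 1 := by omega
    rw [he.symm 0 1 w' w hpr hl hp]
    exact Tone.main e he w'.length w w' ow ow' rfl (by omega)
  · obtain rfl : p = 0 := by omega
    obtain rfl : r = 0 := by omega
    exact Tone.main e he w.length w' w ow' ow rfl (by omega)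

end Pool.Agent.W801.OL
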